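import Pool.Agent.P.MP_e45b92_nt.UlLow

set_option autoImplicit false

namespace Pool.Agent.P.MP_e45b92_nt.Old.BeyondFibonacci

/-- The system `(S_{ε,T})` has a solution. -/
def Solvable (α β ε T : ℝ) : Prop :=
  ∃ p r q : ℤ, 1 ≤ q ∧ (q : ℝ) ≤ T ∧ |p + q * α| * |r + q * β| < ε / T

/-- Multiplicatively well approximable pairs. -/
def MWA (α β : ℝ) : Prop :=
  ∀ ε : ℝ, 0 < ε → ¬ BddAbove {T : ℝ | 0 < T ∧ Solvable α β ε T}

open Pool.Agent.P.MP_e45b92_nt.Ul in
/-- For a residual set of pairs: the pair is MWA, and `(S_{ε,T})` with `ε = 0.3819828` has no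
solution for an unbounded set of `T`. -/
theorem result : ∀ᶠ x : ℝ × ℝ in residual (ℝ × ℝ), MWA x.1 x.2 ∧
    ¬ BddAbove {T : ℝ | 0 < T ∧ ¬ Solvable x.1 x.2 0.3819828 T} := by
  filter_upwards [residual_ins, residual_mwa] with x h1 h2
  constructor
  · rintro ε hε ⟨M, hM⟩
    obtain ⟨k, hk⟩ := exists_nat_gt (max M (1 / ε))
    obtain ⟨T, a, p, r, q, b, c, d⟩ := h2 k
    have h5 : (0 : ℝ) ≤ k := by positivity
    have h6 : 1 / ((k : ℝ) + 1) ≤ ε := by
      have := (le_max_right _ _).trans_lt hk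
      rw [div_lt_iff₀ hε] at this
      rw [div_le_iff₀ (by linarith)]
      nlinarith
    have h7 : (0 : ℝ) < T := by linarith
    have := hM ⟨h7, p, r, q, b, c, d.trans_le (by gcongr)⟩
    linarith [le_max_left M (1 / ε)]
  · rintro ⟨M, hM⟩
    obtain ⟨k, hk⟩ := exists_nat_gt M
    obtain ⟨T, a, b⟩ := h1 k
    have a' : (k : ℝ) < T := by exact_mod_cast a
    have h5 : (0 : ℝ) ≤ k := by positivity
    have := hM (a := (T : ℝ)) ⟨by linarith, fun ⟨p, r, q, c, d, e⟩ =>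
      (b p r q c (by exact_mod_cast d)).not_gt e⟩
    linarith

end Pool.Agent.P.MP_e45b92_nt.Old.BeyondFibonacci
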